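import Pool.Agent.Helper30.PB.All
import Pool.Agent.Helper27.LW.M_SRW
import Pool.Agent.Helper44.LW.M_FNW

/-!
# Project LW: assembly
-/

set_option autoImplicit false

namespace Pool.Agent.Helper30.LW

open Pool.Agent

theorem pFNW : StFNW := Helper44.LW.hFNW (Helper27.LW.hSRW Helper30.PB.pSieve) Helper30.PB.pPIP

end Pool.Agent.Helper30.LW
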