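import Pool.Agent.Helper30.PB.St

/-!
# Project LW (MP_77e955_nt): for infinitely many `n` there is no `k ≤ c log n log log n` with `k (n - k) - 1` prime.
Statements of the modules, with proofs.
-/

set_option autoImplicit false

noncomputable section

namespace Pool.Agent.Helper30.LW

open Finset
open Pool.Agent.Helper93.KN (ff StSieve)
open Pool.Agent.Helper30.PB (StPIP)

open Classical in
/-- the `k ≤ K` such that no prime `5 ≤ l ≤ x / 2` divides `(2 k - 1)(k - 2)` -/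
def Sw (x K : ℕ) : Finset ℕ :=
  (Icc 1 K).filter (fun k => ∀ l : ℕ, l.Prime → 5 ≤ l → 2 * l ≤ x → ¬ (l : ℤ) ∣ (2 * (k : ℤ) - 1) * ((k : ℤ) - 2))

/-- (SRW, assume `hS : StSieve`.) PROOF. StSieve with `r = 2`, `N = K`, `E = 1`, `S l` = the classes `s < l` with `l ∣ (2 s - 1)(s - 2)`, i.e. `2` and `(l + 1) / 2`, which are different for `l ≥ 5`. `K ^ δ ≤ K ^ (1/4) ≤ x ^ (1/2) ≤ x / 2`, `ff 1 = 1`. -/
def StSRW : Prop := ∃ C : ℝ, 0 < C ∧ ∀ x K : ℕ, 4 ≤ x → 2 ≤ K → K ≤ x ^ 2 → ((Sw x K).card : ℝ) ≤ C * (K / Real.log K ^ 2)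

/-- (FNW, assume `hS : StSRW`, `hP : StPIP`.) PROOF. `K = ⌊c₁ x log x⌋`, `x ≤ K ≤ x ^ 2`, so by SRW `|Sw x K| ≤ C c₁ x log x / (log x) ^ 2 ≤ x / (16 log x)` for `c₁ = min(1, 1/(32 C))` (take care of small `c₁`: if `c₁ < 1` use `K ≥ √x`, `log K ≥ (log x) / 2` and `c₁ = 1 / (128 C + 1)`), at most the number of the primes in `(x / 2, x]` (PIP, `Q = 1`). Choose an injection
`k ↦ l_k` of `Sw x K` into these primes with `l_k ∤ k` for all `k` (the primes in `(x / 2, x]` dividing a given `k ≤ x ^ 2` are at most two; it is simplest to take the primes in `(x / 2, x]` in increasing order; alternatively, if `l_k ∣ k` replace the condition below: see next sentence). The condition `l_k ∣ k (n - k) - 1` is solvable in `n` iff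
`l_k ∤ k`, so an injection with this property is needed: use Hall's theorem or a greedy choice: each `k` has at most 2 forbidden primes, so choose the `l_k` one after the other, always possible if `|Sw x K| + 2` is at most the number of the primes (`c₁` smaller by a factor 2). By the Chinese remainder theorem there is `n ∈ [P, 2 P)`, `P = ∏_{5 ≤ l ≤ x} l`, with
`2 n ≡ 5` modulo `l` for the primes `5 ≤ l ≤ x / 2` and `k (n - k) ≡ 1` modulo `l_k` for `k ∈ Sw x K`. For `l ≤ x / 2`: `2 (k (n - k) - 1) ≡ 5 k - 2 k ^ 2 - 2 = - (2 k - 1)(k - 2)` modulo `l`. So for every `1 ≤ k ≤ K` a prime `l ≤ x` divides `k (n - k) - 1 ≥ n - 2 > x` (`k ≤ K < n / 2`), which is not prime.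
`log n ≤ log (2 P) ≤ 2 x` (`primorial_le_4_pow`), `log n ≥ x / 40` (the primes in `(x / 2, x]`), so `log n log log n ≤ 2 x · 2 log x`; `c = c₁ / 8`, and `n ≥ n₀` for large `x`. -/
def StFNW : Prop := ∃ c : ℝ, 0 < c ∧ ∀ n₀ : ℕ, ∃ n : ℕ, n₀ ≤ n ∧ ∀ k : ℕ, 1 ≤ k →
  (k : ℝ) ≤ c * (Real.log n * Real.log (Real.log n)) → 2 * k ≤ n ∧ ¬ (k * (n - k) - 1).Prime

end Pool.Agent.Helper30.LW
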